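import Pool.Agent.N463.HW.Stm

/-!
# HW/CFL: the negative Fourier coefficients of the linear part
(helper862, for helper463)
-/

set_option autoImplicit false

namespace Pool.Agent.N862.HW

open Pool.Agent.N463.HW

theorem X_summable (x : X) : Summable (fun n => |x n|) := by
  have h : Memℓp (fun n => x n) 1 := x.2
  rw [memℓp_gen_iff (by norm_num)] at h
  simpa using h

/-- summability of a combination of shifts -/
theorem summ (a : ℕ → ℝ) (ha : Summable (fun n => |a n|)) (k : ℕ → ℤ) :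
    Summable (fun n => a n • sh (k n)) := by
  refine Summable.of_norm_bounded ha fun n => ?_
  rw [norm_smul, Real.norm_eq_abs]
  calc |a n| * ‖sh (k n)‖ ≤ |a n| * 1 := mul_le_mul_of_nonneg_left (sh_norm _) (abs_nonneg _)
    _ = |a n| := mul_one _

theorem cf_tsum (m : ℤ) (a : ℕ → ℝ) (ha : Summable (fun n => |a n|)) (k : ℕ → ℤ) :
    cf m (∑' n, a n • sh (k n)) = ∑' n, a n * (if m = k n then 1 else 0) := by
  rw [(cf m).map_tsum (summ a ha k)]
  refine tsum_congr fun n => ?_
  rw [map_smul, cf_sh, smul_eq_mul]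

theorem a_summable (x : X) : Summable (fun n : ℕ => |x n / ((n : ℝ) + 2)|) := by
  refine Summable.of_nonneg_of_le (fun n => abs_nonneg _) (fun n => ?_) (X_summable x)
  rw [abs_div]
  refine div_le_self (abs_nonneg _) ?_
  rw [abs_of_pos (by positivity)]
  have : (0 : ℝ) ≤ n := Nat.cast_nonneg n
  linarith

theorem t_CFL : S_CFL := by
  intro P e x
  have hx := X_summable x
  have ha := a_summable x
  have hGp : ∀ m : ℤ, cf m (Gp e x) = e * (if m = 1 then 1 else 0) +
      ∑' n : ℕ, x n * (if m = (n : ℤ) + 2 then 1 else 0) := by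
    intro m
    unfold Gp
    rw [map_add, map_smul, cf_sh, smul_eq_mul, cf_tsum m _ hx]
  have hGm : ∀ m : ℤ, cf m (Gm e x) = e * (if m = -1 then 1 else 0) +
      ∑' n : ℕ, x n * (if m = -((n : ℤ) + 2) then 1 else 0) := by
    intro m
    unfold Gm
    rw [map_add, map_smul, cf_sh, smul_eq_mul, cf_tsum m _ hx]
  have hvv : ∀ m : ℤ, cf m (vv e x) = e * ((if m = 1 then 1 else 0) + (if m = -1 then 1 else 0)) +
      (∑' n : ℕ, (x n / ((n : ℝ) + 2)) * (if m = (n : ℤ) + 2 then 1 else 0) +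
        ∑' n : ℕ, (x n / ((n : ℝ) + 2)) * (if m = -((n : ℤ) + 2) then 1 else 0)) := by
    intro m
    unfold vv
    have e1 : ∑' n : ℕ, (x n / ((n : ℝ) + 2)) • (sh ((n : ℤ) + 2) + sh (-((n : ℤ) + 2))) =
        ∑' n : ℕ, (x n / ((n : ℝ) + 2)) • sh ((n : ℤ) + 2) +
          ∑' n : ℕ, (x n / ((n : ℝ) + 2)) • sh (-((n : ℤ) + 2)) := by
      rw [← (summ _ ha _).tsum_add (summ _ ha _)]
      exact tsum_congr fun n => smul_add _ _ _
    rw [e1, map_add, map_smul, map_add, map_add, cf_sh, cf_sh, smul_eq_mul, cf_tsum m _ ha,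
      cf_tsum m _ ha]
  have hz : ∀ (m : ℤ) (a : ℕ → ℝ) (k : ℕ → ℤ), (∀ n, m ≠ k n) →
      ∑' n, a n * (if m = k n then (1 : ℝ) else 0) = 0 := by
    intro m a k h
    have h1 : ∀ n, a n * (if m = k n then (1 : ℝ) else 0) = 0 := fun n => by
      rw [if_neg (h n), mul_zero]
    rw [tsum_congr h1, tsum_zero]
  have hs : ∀ (a : ℕ → ℝ) (n : ℕ),
      ∑' j : ℕ, a j * (if -((n : ℤ) + 2) = -((j : ℤ) + 2) then (1 : ℝ) else 0) = a n := by
    intro a n
    rw [tsum_eq_single n]
    · simp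
    · intro j hj
      rw [if_neg, mul_zero]
      intro h
      apply hj
      omega
  constructor
  · simp only [map_sub, map_add, map_smul, hGp, hGm, hvv, smul_eq_mul]
    rw [hz (-1) _ (fun n : ℕ => (n : ℤ) + 2) (fun n => by omega),
      hz (-1) _ (fun n : ℕ => -((n : ℤ) + 2)) (fun n => by omega),
      hz (-1) (fun n : ℕ => x n / ((n : ℝ) + 2)) (fun n : ℕ => (n : ℤ) + 2) (fun n => by omega),
      hz (-1) (fun n : ℕ => x n / ((n : ℝ) + 2)) (fun n : ℕ => -((n : ℤ) + 2)) (fun n => by omega)]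
    norm_num
    ring
  · intro n
    simp only [map_sub, map_add, map_smul, hGp, hGm, hvv, smul_eq_mul]
    rw [hz (-((n : ℤ) + 2)) _ (fun j : ℕ => (j : ℤ) + 2) (fun j => by omega),
      hz (-((n : ℤ) + 2)) (fun j : ℕ => x j / ((j : ℝ) + 2)) (fun j : ℕ => (j : ℤ) + 2)
        (fun j => by omega),
      hs (fun j => x j) n, hs (fun j : ℕ => x j / ((j : ℝ) + 2)) n,
      if_neg (by omega), if_neg (by omega)]
    have hn : (n : ℝ) + 2 ≠ 0 := by positivity
    field_simp
    ring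

end Pool.Agent.N862.HW
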